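import Pool.Agent.Q106.PK.Stm

/-!
Job PK-BOUND of `Pool/Agent/Q106/PK/Stm.lean`: the induction for the numbers of fixed polyominoes.
-/

set_option autoImplicit false

namespace Pool.Agent.Q106.PK

open Filter Topology

theorem bound_prod {k n : ℕ} (hk1 : 1 ≤ k) (h1 : n ≤ 4 * k + 1) (h2 : 2 * k ≤ n) :
    (n : ℝ) ^ 2 ≤ 8 * ((k : ℝ) * ((n : ℝ) - k)) := by
  have a1 : (0 : ℝ) ≤ 4 * k + 1 - n := by
    have : (n : ℝ) ≤ 4 * k + 1 := by exact_mod_cast h1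
    linarith
  have a2 : (0 : ℝ) ≤ n - 2 * k := by
    have : (2 : ℝ) * k ≤ n := by exact_mod_cast h2
    linarith
  have a3 : (1 : ℝ) ≤ k := by exact_mod_cast hk1
  have a4 : (0 : ℝ) ≤ n := Nat.cast_nonneg n
  have a5 := mul_nonneg a1 a2
  have a6 : (n : ℝ) ≤ k * n := by nlinarith
  nlinarith

theorem bound_term {E T1 T2 x y N : ℝ} {k l n : ℕ} (hkl : k + l = n) (hE : 0 < E) (hT1 : 0 ≤ T1)
    (hT2 : 0 ≤ T2) (hx : 0 ≤ x) (hy : 0 ≤ y) (a1 : T1 * x ^ 5 ≤ E ^ k) (a2 : T2 * y ^ 5 ≤ E ^ l)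
    (hu : N ^ 2 ≤ 8 * (x * y)) : 4 * x * y * T1 * T2 * N ^ 8 ≤ 16384 * E ^ n := by
  have h8 : N ^ 8 ≤ (8 * (x * y)) ^ 4 := by
    calc N ^ 8 = (N ^ 2) ^ 4 := by ring
      _ ≤ (8 * (x * y)) ^ 4 := pow_le_pow_left₀ (sq_nonneg N) hu 4
  have hp : (T1 * x ^ 5) * (T2 * y ^ 5) ≤ E ^ n := by
    calc (T1 * x ^ 5) * (T2 * y ^ 5) ≤ E ^ k * E ^ l :=
          mul_le_mul a1 a2 (by positivity) (by positivity)
      _ = E ^ n := by rw [← pow_add, hkl]
  calc 4 * x * y * T1 * T2 * N ^ 8 ≤ 4 * x * y * T1 * T2 * (8 * (x * y)) ^ 4 :=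
        mul_le_mul_of_nonneg_left h8 (by positivity)
    _ = 16384 * ((T1 * x ^ 5) * (T2 * y ^ 5)) := by ring
    _ ≤ 16384 * E ^ n := by linarith

theorem t_BOUND (h : S_INEQ) : S_BOUND := by
  intro m E hm hE hb n
  induction n using Nat.strong_induction_on with
  | _ n ih =>
  intro hn
  by_cases h4 : n ≤ 4 * m
  · exact hb n hn h4
  · have h2 : 2 ≤ n := by omega
    have hI := h n h2
    have hcard : ((Finset.Icc 1 (n - 1)).filter
        (fun k => n ≤ 4 * k + 1 ∧ 2 * k ≤ n)).card ≤ n / 2 := by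
      have hs : (Finset.Icc 1 (n - 1)).filter (fun k => n ≤ 4 * k + 1 ∧ 2 * k ≤ n) ⊆
          Finset.Icc 1 (n / 2) := by
        intro k hk
        rw [Finset.mem_filter, Finset.mem_Icc] at hk
        rw [Finset.mem_Icc]
        omega
      calc _ ≤ (Finset.Icc 1 (n / 2)).card := Finset.card_le_card hs
        _ = n / 2 := by rw [Nat.card_Icc]; omega
    have hterm : ∀ k ∈ (Finset.Icc 1 (n - 1)).filter (fun k => n ≤ 4 * k + 1 ∧ 2 * k ≤ n),
        ((4 * k * (n - k) * t k * t (n - k) : ℕ) : ℝ) * (n : ℝ) ^ 8 ≤ 16384 * E ^ n := by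
      intro k hk
      rw [Finset.mem_filter, Finset.mem_Icc] at hk
      obtain ⟨⟨hk1, hk2⟩, hk3, hk4⟩ := hk
      have hle : k ≤ n := by omega
      have a1 := ih k (by omega) (by omega)
      have a2 := ih (n - k) (by omega) (by omega)
      have hc : ((n - k : ℕ) : ℝ) = (n : ℝ) - k := Nat.cast_sub hle
      have hy : (0 : ℝ) ≤ (n : ℝ) - k := by rw [← hc]; exact Nat.cast_nonneg _
      rw [hc] at a2
      have hm' : ((4 * k * (n - k) * t k * t (n - k) : ℕ) : ℝ) =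
          4 * (k : ℝ) * ((n : ℝ) - k) * (t k : ℝ) * (t (n - k) : ℝ) := by
        rw [Nat.cast_mul, Nat.cast_mul, Nat.cast_mul, Nat.cast_mul, hc]
        norm_num
      rw [hm']
      exact bound_term (Nat.add_sub_of_le hle) hE (Nat.cast_nonneg _) (Nat.cast_nonneg _)
        (Nat.cast_nonneg _) hy a1 a2 (bound_prod hk1 hk3 hk4)
    have hEn : 0 < E ^ n := pow_pos hE n
    have hn0 : (0 : ℝ) < n := by
      have : 0 < n := by omega
      exact_mod_cast this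
    have hn145 : (145 : ℝ) ≤ n := by
      have : 145 ≤ n := by omega
      exact_mod_cast this
    have hIr : (t n : ℝ) ≤ ∑ k ∈ (Finset.Icc 1 (n - 1)).filter
        (fun k => n ≤ 4 * k + 1 ∧ 2 * k ≤ n), ((4 * k * (n - k) * t k * t (n - k) : ℕ) : ℝ) := by
      rw [← Nat.cast_sum]
      exact_mod_cast hI
    have h1 : (t n : ℝ) * (n : ℝ) ^ 8 ≤ (n : ℝ) / 2 * (16384 * E ^ n) := by
      calc (t n : ℝ) * (n : ℝ) ^ 8 ≤ (∑ k ∈ (Finset.Icc 1 (n - 1)).filter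
            (fun k => n ≤ 4 * k + 1 ∧ 2 * k ≤ n),
              ((4 * k * (n - k) * t k * t (n - k) : ℕ) : ℝ)) * (n : ℝ) ^ 8 :=
            mul_le_mul_of_nonneg_right hIr (by positivity)
        _ = ∑ k ∈ (Finset.Icc 1 (n - 1)).filter (fun k => n ≤ 4 * k + 1 ∧ 2 * k ≤ n),
              ((4 * k * (n - k) * t k * t (n - k) : ℕ) : ℝ) * (n : ℝ) ^ 8 := Finset.sum_mul _ _ _
        _ ≤ ((Finset.Icc 1 (n - 1)).filter
              (fun k => n ≤ 4 * k + 1 ∧ 2 * k ≤ n)).card • (16384 * E ^ n) :=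
            Finset.sum_le_card_nsmul _ _ _ hterm
        _ = (((Finset.Icc 1 (n - 1)).filter
              (fun k => n ≤ 4 * k + 1 ∧ 2 * k ≤ n)).card : ℝ) * (16384 * E ^ n) := by
            rw [nsmul_eq_mul]
        _ ≤ (n : ℝ) / 2 * (16384 * E ^ n) := by
            apply mul_le_mul_of_nonneg_right _ (by positivity)
            calc (((Finset.Icc 1 (n - 1)).filter
              (fun k => n ≤ 4 * k + 1 ∧ 2 * k ≤ n)).card : ℝ) ≤ ((n / 2 : ℕ) : ℝ) := by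
                  exact_mod_cast hcard
              _ ≤ (n : ℝ) / 2 := by
                  exact_mod_cast (Nat.cast_div_le (α := ℝ) (m := n) (n := 2))
    have h3 : ((t n : ℝ) * (n : ℝ) ^ 5 * (n : ℝ) ^ 2) * n ≤ (8192 * E ^ n) * n := by
      calc ((t n : ℝ) * (n : ℝ) ^ 5 * (n : ℝ) ^ 2) * n = (t n : ℝ) * (n : ℝ) ^ 8 := by ring
        _ ≤ (n : ℝ) / 2 * (16384 * E ^ n) := h1
        _ = (8192 * E ^ n) * n := by ring
    have h5 : (t n : ℝ) * (n : ℝ) ^ 5 * (n : ℝ) ^ 2 ≤ 8192 * E ^ n :=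
      le_of_mul_le_mul_right h3 hn0
    have h6 : (8192 : ℝ) ≤ (n : ℝ) ^ 2 := by nlinarith
    have h7 : (t n : ℝ) * (n : ℝ) ^ 5 * 8192 ≤ E ^ n * 8192 := by
      calc (t n : ℝ) * (n : ℝ) ^ 5 * 8192 ≤ (t n : ℝ) * (n : ℝ) ^ 5 * (n : ℝ) ^ 2 :=
            mul_le_mul_of_nonneg_left h6 (by positivity)
        _ ≤ 8192 * E ^ n := h5
        _ = E ^ n * 8192 := by ring
    exact le_of_mul_le_mul_right h7 (by norm_num)

end Pool.Agent.Q106.PK
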