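import Mathlib
import Pool.Agent.Q82.CW.Stm

/-!
Job CW-REP of project CW: an `L²` function with weak derivative in `L²` has a continuous
representative which is a primitive of the weak derivative.
-/

set_option autoImplicit false

open MeasureTheory Filter Topology Set
open scoped ContDiff

namespace Pool.Agent.Q82.CW

theorem rep_supp {φ : ℝ → ℝ} (hc : HasCompactSupport φ) :
    ∃ R : ℝ, 0 < R ∧ (∀ x, R ≤ |x| → φ x = 0) ∧ ∀ x, R ≤ |x| → deriv φ x = 0 := by
  obtain ⟨R, hR⟩ := hc.isCompact.isBounded.subset_ball (0 : ℝ)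
  have key : ∀ x, max R 1 ≤ |x| → x ∉ tsupport φ := by
    intro x hx h
    have h1 := hR h
    rw [Metric.mem_ball, dist_zero_right, Real.norm_eq_abs] at h1
    exact absurd (lt_of_lt_of_le h1 (le_max_left _ _)) (not_lt.2 hx)
  refine ⟨max R 1, lt_of_lt_of_le one_pos (le_max_right _ _), fun x hx => ?_, fun x hx => ?_⟩
  · exact image_eq_zero_of_notMem_tsupport (key x hx)
  · by_contra h
    exact key x hx (support_deriv_subset h)

theorem rep_int {f : ℝ → ℝ} {R : ℝ} (h : ∀ x, R ≤ |x| → f x = 0) :
    ∫ x in (-R)..R, f x = ∫ x, f x := by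
  apply intervalIntegral.integral_eq_integral_of_support_subset
  intro x hx
  by_contra h'
  apply hx
  apply h
  simp only [mem_Ioc, not_and_or, not_lt, not_le] at h'
  rcases h' with h' | h'
  · exact le_trans (by linarith) (neg_le_abs x)
  · exact le_trans h'.le (le_abs_self x)

theorem rep_ibp {b : ℝ → ℝ} (hb : ∀ x y : ℝ, IntervalIntegrable b volume x y) {φ : ℝ → ℝ}
    (hφ : ContDiff ℝ ∞ φ) (hc : HasCompactSupport φ) :
    ∫ x, (∫ s in (0 : ℝ)..x, b s) * deriv φ x = -∫ x, b x * φ x := by
  obtain ⟨R, hR, h, h'⟩ := rep_supp hc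
  have e1 : ∫ x, (∫ s in (0 : ℝ)..x, b s) * deriv φ x =
      ∫ x in (-R)..R, (∫ s in (0 : ℝ)..x, b s) * deriv φ x :=
    (rep_int (fun x hx => by rw [h' x hx, mul_zero])).symm
  have e2 : ∫ x, b x * φ x = ∫ x in (-R)..R, b x * φ x :=
    (rep_int (fun x hx => by rw [h x hx, mul_zero])).symm
  rw [e1, e2]
  have h0 : (0 : ℝ) ∈ uIcc (-R) R := by
    rw [uIcc_of_le (by linarith)]; constructor <;> linarith
  have hB := (hb (-R) R).absolutelyContinuousOnInterval_intervalIntegral h0
  have hF : AbsolutelyContinuousOnInterval φ (-R) R :=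
    (hφ.of_le (by simp)).contDiffOn.absolutelyContinuousOnInterval
  rw [hB.integral_mul_deriv_eq_deriv_mul hF, h R (le_abs_self R),
    h (-R) (by rw [abs_neg]; exact le_abs_self R), mul_zero, mul_zero, sub_zero, zero_sub]
  congr 1
  apply intervalIntegral.integral_congr_ae
  filter_upwards [(hb (-R) R).ae_hasDerivAt_integral] with x hx hx'
  rw [(hx (uIoc_subset_uIcc hx') 0 h0).deriv]

theorem rep_const {f : ℝ → ℝ} (hf : LocallyIntegrable f volume)
    (h : ∀ φ : ℝ → ℝ, ContDiff ℝ ∞ φ → HasCompactSupport φ → ∫ x, f x * deriv φ x = 0) :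
    ∃ c : ℝ, ∀ᵐ x : ℝ, f x = c := by
  let bb : ContDiffBump (0 : ℝ) := ⟨1, 2, one_pos, by norm_num⟩
  let ρ : ℝ → ℝ := bb.normed volume
  have hρ : ContDiff ℝ ∞ ρ := bb.contDiff_normed
  have hρc : HasCompactSupport ρ := bb.hasCompactSupport_normed
  have hρi : ∫ x, ρ x = 1 := bb.integral_normed
  refine ⟨∫ x, f x * ρ x, ?_⟩
  apply ae_eq_of_integral_contDiff_smul_eq hf (locallyIntegrable_const _)
  intro g hg hgc
  let k : ℝ → ℝ := fun x => g x - (∫ y, g y) * ρ x
  have hk : ContDiff ℝ ∞ k := hg.sub (contDiff_const.mul hρ)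
  have hkc : HasCompactSupport k := hgc.sub hρc.mul_left
  have hki : ∫ x, k x = 0 := by
    simp only [k]
    rw [integral_sub (hg.continuous.integrable_of_hasCompactSupport hgc)
      ((hρ.continuous.integrable_of_hasCompactSupport hρc).const_mul _), integral_const_mul, hρi,
      mul_one, sub_self]
  obtain ⟨R, hR, hz, -⟩ := rep_supp hkc
  have hkint : ∀ x y, IntervalIntegrable k volume x y :=
    fun x y => hk.continuous.intervalIntegrable x y
  let φ : ℝ → ℝ := fun x => ∫ s in (-R)..x, k s
  have hd : ∀ x, HasDerivAt φ (k x) x := fun x =>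
    intervalIntegral.integral_hasDerivAt_right (hkint _ _)
      (hk.continuous.stronglyMeasurableAtFilter _ _) hk.continuous.continuousAt
  have hde : deriv φ = k := funext fun x => (hd x).deriv
  have hφ : ContDiff ℝ ∞ φ := by
    rw [contDiff_infty_iff_deriv]
    exact ⟨fun x => (hd x).differentiableAt, by rw [hde]; exact hk⟩
  have hφc : HasCompactSupport φ := by
    apply HasCompactSupport.intro (isCompact_Icc (a := -R) (b := R))
    intro x hx
    simp only [φ]
    rw [mem_Icc, not_and_or, not_le, not_le] at hx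
    rcases hx with hx | hx
    · have e : ∫ s in (-R)..x, k s = ∫ s in (-R)..x, (0 : ℝ) := by
        apply intervalIntegral.integral_congr
        intro s hs
        rw [uIcc_of_ge hx.le, mem_Icc] at hs
        exact hz s (le_trans (by linarith [hs.2]) (neg_le_abs s))
      rw [e]
      simp
    · have e : ∫ s in (-R)..x, k s = ∫ s, k s := by
        apply intervalIntegral.integral_eq_integral_of_support_subset
        intro y hy
        by_contra h'
        apply hy
        apply hz
        simp only [mem_Ioc, not_and_or, not_lt, not_le] at h'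
        rcases h' with h' | h'
        · exact le_trans (by linarith) (neg_le_abs y)
        · exact le_trans (by linarith) (le_abs_self y)
      rw [e, hki]
  have e := h φ hφ hφc
  rw [hde] at e
  have ig := hf.integrable_smul_left_of_hasCompactSupport hg.continuous hgc
  have ir := hf.integrable_smul_left_of_hasCompactSupport hρ.continuous hρc
  have e3 : ∫ x, f x * k x = (∫ x, g x • f x) - (∫ y, g y) * ∫ x, f x * ρ x := by
    have e4 : ∫ x, f x * ρ x = ∫ x, ρ x • f x := by
      apply integral_congr_ae
      exact Eventually.of_forall fun x => by simp only [smul_eq_mul]; ring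
    rw [e4, ← integral_const_mul, ← integral_sub ig (ir.const_mul _)]
    apply integral_congr_ae
    exact Eventually.of_forall fun x => by simp only [k, smul_eq_mul]; ring
  rw [e3] at e
  have e5 : ∫ x, g x • (∫ y, f y * ρ y) = (∫ x, g x) * ∫ x, f x * ρ x := by
    simp only [smul_eq_mul]
    rw [integral_mul_const]
  rw [e5]
  linarith

theorem rep1 : S_REP := by
  intro a b hab
  have hbl : LocallyIntegrable (b : ℝ → ℝ) volume := (Lp.memLp b).locallyIntegrable (by norm_num)
  have hal : LocallyIntegrable (a : ℝ → ℝ) volume := (Lp.memLp a).locallyIntegrable (by norm_num)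
  have hb : ∀ x y : ℝ, IntervalIntegrable (b : ℝ → ℝ) volume x y := fun x y =>
    (hbl.integrableOn_isCompact isCompact_uIcc).intervalIntegrable
  let B : ℝ → ℝ := fun x => ∫ s in (0 : ℝ)..x, b s
  have hBc : Continuous B := intervalIntegral.continuous_primitive hb 0
  obtain ⟨c, hc⟩ := rep_const (f := fun x => a x - B x) (hal.sub hBc.locallyIntegrable) (by
    intro φ hφ hφc
    have e := hab φ hφ hφc
    have e2 := rep_ibp hb hφ hφc
    have e3 : ∫ x, (a x - B x) * deriv φ x = (∫ x, a x * deriv φ x) - ∫ x, B x * deriv φ x := by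
      have i2 : Integrable (fun x => B x * deriv φ x) :=
        (hBc.mul (hφ.continuous_deriv (by simp))).integrable_of_hasCompactSupport
          hφc.deriv.mul_left
      rw [← integral_sub (int_mul a (hφ.continuous_deriv (by simp)) hφc.deriv) i2]
      apply integral_congr_ae
      exact Eventually.of_forall fun x => by simp only; ring
    rw [e3, e, e2]
    ring)
  refine ⟨fun x => B x + c, by fun_prop, ?_, fun x y => ?_⟩
  · filter_upwards [hc] with x hx
    linarith
  · simp only [B]
    rw [add_sub_add_right_eq_sub, intervalIntegral.integral_interval_sub_left (hb _ _) (hb _ _)]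

end Pool.Agent.Q82.CW
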