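import Pool.Agent.Q127.DJ.Stm

set_option autoImplicit false

namespace Pool.Agent.Q234.DJ_LAG

open MeasureTheory Filter Topology
open Pool.Agent.Q127.DJ

theorem S_iter (j : ℕ) : ∀ (y : ℕ → ℕ) (n : ℕ), (S^[j] y) n = y (n + j) := by
  induction j with
  | zero => intro y n; rfl
  | succ j ih =>
    intro y n
    rw [Function.iterate_succ, Function.comp_apply, ih]
    unfold S
    congr 1

theorem lag : S_lag := by
  intro μ ν _ _ hμ hν m k f h a b j ξ _ hξ h1 h2 hne
  have hSj : MeasurePreserving (S^[j]) ν ν := hν.iterate j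
  have hT : Measurable (Prod.map (id : (ℕ → ℕ) → (ℕ → ℕ)) (S^[j])) :=
    measurable_id.prodMap hSj.measurable
  have hprob : IsProbabilityMeasure (ξ.map (Prod.map (id : (ℕ → ℕ) → (ℕ → ℕ)) (S^[j]))) :=
    Measure.isProbabilityMeasure_map hT.aemeasurable
  have hm1 : (ξ.map (Prod.map (id : (ℕ → ℕ) → (ℕ → ℕ)) (S^[j]))).map Prod.fst = μ := by
    rw [Measure.map_map measurable_fst hT]
    exact h1
  have hm2 : (ξ.map (Prod.map (id : (ℕ → ℕ) → (ℕ → ℕ)) (S^[j]))).map Prod.snd = ν := by
    rw [Measure.map_map measurable_snd hT]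
    have : (Prod.snd ∘ Prod.map (id : (ℕ → ℕ) → (ℕ → ℕ)) (S^[j])) = (S^[j]) ∘ Prod.snd := rfl
    rw [this, ← Measure.map_map hSj.measurable measurable_snd, h2]
    exact hSj.map_eq
  refine ⟨ξ.map (Prod.map (id : (ℕ → ℕ) → (ℕ → ℕ)) (S^[j])), hprob, ⟨hξ.measurable, ?_⟩, hm1, hm2, ?_⟩
  · rw [Measure.map_map hξ.measurable hT]
    have hc : (Prod.map S S ∘ Prod.map (id : (ℕ → ℕ) → (ℕ → ℕ)) (S^[j])) =
        Prod.map (id : (ℕ → ℕ) → (ℕ → ℕ)) (S^[j]) ∘ Prod.map S S := by
      funext p
      rcases p with ⟨x, y⟩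
      simp only [Function.comp_apply, Prod.map_apply, id_eq]
      rw [← Function.iterate_succ_apply' S j y, ← Function.iterate_succ_apply S j y]
    rw [hc, ← Measure.map_map hT hξ.measurable, hξ.map_eq]
  · by_contra hcon
    push Not at hcon
    apply hne
    set ξ' := ξ.map (Prod.map (id : (ℕ → ℕ) → (ℕ → ℕ)) (S^[j])) with hξ'
    have e0 : Measurable (fun x : ℕ → ℕ => x 0) := measurable_pi_apply 0
    have eP : Measurable (fun p : (ℕ → ℕ) × (ℕ → ℕ) => (p.1 0, p.2 0)) :=
      (e0.comp measurable_fst).prodMk (e0.comp measurable_snd)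
    have hpm : IsProbabilityMeasure (μ.map (fun x : ℕ → ℕ => x 0)) :=
      Measure.isProbabilityMeasure_map e0.aemeasurable
    have hpn : IsProbabilityMeasure (ν.map (fun x : ℕ → ℕ => x 0)) :=
      Measure.isProbabilityMeasure_map e0.aemeasurable
    have heq : ξ'.map (fun p : (ℕ → ℕ) × (ℕ → ℕ) => (p.1 0, p.2 0)) =
        (μ.map (fun x : ℕ → ℕ => x 0)).prod (ν.map (fun x : ℕ → ℕ => x 0)) := by
      apply Measure.ext_of_singleton
      rintro ⟨a', b'⟩
      rw [Measure.map_apply eP (measurableSet_singleton _), ← Set.singleton_prod_singleton,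
        Measure.prod_prod, Measure.map_apply e0 (measurableSet_singleton _),
        Measure.map_apply e0 (measurableSet_singleton _)]
      exact hcon a' b'
    have hA : MeasurableSet ({n : ℕ | f n = a}) := MeasurableSet.of_discrete
    have hB : MeasurableSet ({n : ℕ | h n = b}) := MeasurableSet.of_discrete
    have hval : ξ' {p | f (p.1 0) = a ∧ h (p.2 0) = b} =
        μ {x | f (x 0) = a} * ν {y | h (y 0) = b} := by
      have h3 := congrArg (fun κ : Measure (ℕ × ℕ) => κ ({n : ℕ | f n = a} ×ˢ {n : ℕ | h n = b})) heq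
      rw [Measure.map_apply eP (hA.prod hB), Measure.prod_prod, Measure.map_apply e0 hA,
        Measure.map_apply e0 hB] at h3
      exact h3
    have hset : MeasurableSet {p : (ℕ → ℕ) × (ℕ → ℕ) | f (p.1 0) = a ∧ h (p.2 0) = b} :=
      eP (hA.prod hB)
    have hpull : ξ' {p | f (p.1 0) = a ∧ h (p.2 0) = b} = ξ {p | f (p.1 0) = a ∧ h (p.2 j) = b} := by
      rw [hξ', Measure.map_apply hT hset]
      congr 1
      ext p
      simp only [Set.mem_preimage, Set.mem_ofPred_eq, Prod.map_fst, Prod.map_snd, id_eq, S_iter,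
        Nat.zero_add]
    rw [Measure.real, Measure.real, Measure.real, ← ENNReal.toReal_mul, ← hval, hpull]

end Pool.Agent.Q234.DJ_LAG
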