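import Mathlib

set_option autoImplicit false

/-!
# The lattice function of Feynman checkers

`W p m` is the coefficient of `x^p y^m` in `1 / (1 - x - y + 2 x y)`.
-/

namespace Q234.FC

/-- coefficient of `x^p y^m` in `1 / (1 - x - y + 2 x y)` -/
def W : ℕ → ℕ → ℤ
  | 0, _ => 1
  | _ + 1, 0 => 1
  | p + 1, m + 1 => W p (m + 1) + W (p + 1) m - 2 * W p m

@[simp] lemma W_zero_left (m : ℕ) : W 0 m = 1 := by cases m <;> simp [W]

@[simp] lemma W_zero_right (p : ℕ) : W p 0 = 1 := by cases p <;> simp [W]

lemma W_succ (p m : ℕ) : W (p + 1) (m + 1) = W p (m + 1) + W (p + 1) m - 2 * W p m := by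
  rw [W]

lemma W_one_left (m : ℕ) : W 1 m = 1 - m := by
  induction m with
  | zero => simp
  | succ m ih =>
    rw [W_succ, ih]; simp; ring

lemma W_one_right (p : ℕ) : W p 1 = 1 - p := by
  induction p with
  | zero => simp
  | succ m ih =>
    rw [W_succ, ih]; simp; ring

/-- the contiguity relation -/
theorem F : ∀ N p m : ℕ, p + m = N →
    ((p : ℤ) + 1) * W (p + 1) m - ((m : ℤ) + 1) * W p (m + 1) = 2 * ((p : ℤ) - m) * W p m := by
  intro N
  induction N using Nat.strong_induction_on with
  | _ N ih =>
    intro p m hpm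
    rcases p with _ | p
    · rw [W_one_left]; simp; ring
    rcases m with _ | m
    · rw [W_one_right]; simp; ring
    have h1 := ih (p + m + 1) (by omega) p (m + 1) (by omega)
    have h2 := ih (p + 1 + m) (by omega) (p + 1) m (by omega)
    have h3 := ih (p + m) (by omega) p m rfl
    have b1 := W_succ p m
    have b2 := W_succ (p + 1) m
    have b3 := W_succ p (m + 1)
    push_cast at *
    rw [b2, b3]
    linear_combination h1 + h2 - 2 * h3 - (2 * ((p : ℤ) - m)) * b1
  
end Q234.FC
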