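import Mathlib
import Pool.Agent.Q234.FCW

set_option autoImplicit false

/-!
# Ratio barrier for the Feynman checkers lattice function
-/

namespace Q234.FC

/-- signed value -/
noncomputable def Yv (p k : ℕ) : ℝ := (-1) ^ k * (W p k : ℝ)
/-- signed value -/
noncomputable def Xv (p k : ℕ) : ℝ := (-1) ^ (k + 1) * (W p (k + 1) : ℝ)

lemma rel1 (P k : ℕ) :
    ((P : ℝ) + 1) * Yv P (k + 1) = ((P : ℝ) - k) * Xv (P + 1) k - ((k : ℝ) + 1) * Yv (P + 1) k := by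
  have h := F (P + k) P k rfl
  have b := W_succ P k
  have h' : (((P : ℝ) + 1) * (W (P + 1) k : ℝ) - ((k : ℝ) + 1) * (W P (k + 1) : ℝ)) =
      2 * ((P : ℝ) - k) * (W P k : ℝ) := by exact_mod_cast h
  have b' : (W (P + 1) (k + 1) : ℝ) = (W P (k + 1) : ℝ) + (W (P + 1) k : ℝ) - 2 * (W P k : ℝ) := by
    exact_mod_cast b
  unfold Yv Xv
  rw [b']
  rw [pow_succ]
  linear_combination ((-1 : ℝ) ^ k) * h'

lemma rel2 (P k : ℕ) :
    ((k : ℝ) + 2) * Xv P (k + 1) =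
      2 * ((P : ℝ) - k - 1) * Yv P (k + 1) - ((P : ℝ) + 1) * Xv (P + 1) k := by
  have h := F (P + (k + 1)) P (k + 1) rfl
  have h' : (((P : ℝ) + 1) * (W (P + 1) (k + 1) : ℝ) - (((k : ℝ) + 1) + 1) * (W P (k + 1 + 1) : ℝ)) =
      2 * ((P : ℝ) - (k + 1)) * (W P (k + 1) : ℝ) := by exact_mod_cast h
  unfold Yv Xv
  rw [pow_succ (-1 : ℝ) (k + 1), pow_succ (-1 : ℝ) k]
  linear_combination (-(-1 : ℝ) ^ k) * h'

/-- barrier predicate -/
def B (p k : ℕ) (β : ℝ) : Prop := 0 < Yv p k ∧ β * Yv p k ≤ Xv p k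

lemma B_step (P k : ℕ) (β β' K : ℝ) (hB : B (P + 1) k β)
    (hK : K = 2 * ((P : ℝ) - k - 1) - ((k : ℝ) + 2) * β')
    (h1 : 0 ≤ K * ((P : ℝ) - k) - ((P : ℝ) + 1) ^ 2)
    (h2 : 0 ≤ (K * ((P : ℝ) - k) - ((P : ℝ) + 1) ^ 2) * β - K * ((k : ℝ) + 1))
    (h3 : (k : ℝ) + 1 < ((P : ℝ) - k) * β) (h4 : 0 ≤ (P : ℝ) - k) : B P (k + 1) β' := by
  obtain ⟨hy, hx⟩ := hB
  have r1 := rel1 P k
  have r2 := rel2 P k
  set x := Xv (P + 1) k
  set y := Yv (P + 1) k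
  set x' := Xv P (k + 1)
  set y' := Yv P (k + 1)
  have hp : (0 : ℝ) < (P : ℝ) + 1 := by positivity
  have hk : (0 : ℝ) < (k : ℝ) + 2 := by positivity
  refine ⟨?_, ?_⟩
  · have : 0 < ((P : ℝ) + 1) * y' := by
      rw [r1]
      have e1 : ((P : ℝ) - k) * (β * y) ≤ ((P : ℝ) - k) * x := mul_le_mul_of_nonneg_left hx h4
      have e2 : ((k : ℝ) + 1) * y < (((P : ℝ) - k) * β) * y := mul_lt_mul_of_pos_right h3 hy
      nlinarith
    exact (mul_pos_iff_of_pos_left hp).1 this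
  · have key : 0 ≤ ((P : ℝ) + 1) * (((k : ℝ) + 2) * (x' - β' * y')) := by
      have e : ((P : ℝ) + 1) * (((k : ℝ) + 2) * (x' - β' * y')) =
          (K * ((P : ℝ) - k) - ((P : ℝ) + 1) ^ 2) * x - K * ((k : ℝ) + 1) * y := by
        rw [hK]
        linear_combination ((P : ℝ) + 1) * r2 +
          (2 * ((P : ℝ) - k - 1) - ((k : ℝ) + 2) * β') * r1
      rw [e]
      have e1 : (K * ((P : ℝ) - k) - ((P : ℝ) + 1) ^ 2) * (β * y) ≤
        (K * ((P : ℝ) - k) - ((P : ℝ) + 1) ^ 2) * x := mul_le_mul_of_nonneg_left hx h1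
      have e2 : 0 ≤ ((K * ((P : ℝ) - k) - ((P : ℝ) + 1) ^ 2) * β - K * ((k : ℝ) + 1)) * y :=
        mul_nonneg h2 hy.le
      nlinarith
    have h5 : 0 ≤ ((k : ℝ) + 2) * (x' - β' * y') := (mul_nonneg_iff_of_pos_left hp).1 key
    have h6 : 0 ≤ x' - β' * y' := (mul_nonneg_iff_of_pos_left hk).1 h5
    linarith

lemma B_start (p : ℕ) (β : ℝ) (h : β + 1 ≤ p) : B p 0 β := by
  have h1 : Yv p 0 = 1 := by simp [Yv]
  have h2 : Xv p 0 = p - 1 := by simp [Xv, W_one_right]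
  refine ⟨?_, ?_⟩
  · rw [h1]; norm_num
  · rw [h1, h2]; linarith

/-- the polynomial inequality for one step -/
lemma ineq1 {n m d p β β' l r δ K : ℝ} (hr : r ^ 2 = 2)
    (hd : d = n - 2 * m) (hp : p = n - m) (hβ : β = r + δ)
    (hδ1 : m * δ ^ 2 ≤ 1) (hβ1 : 1 ≤ β) (hβ2 : β ≤ 2) (hm0 : 0 ≤ m) (hd0 : 0 ≤ d)
    (hβ' : β' = β - l) (hK : K = 2 * (d - 1) - (m + 1) * β')
    (main : d * β * ((4 + 2 * r) * m - n + 5) ≤ (m + 1) * l * (d * β - m)) :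
    0 ≤ (K * d - p ^ 2) * β - K * m := by
  have e : (K * d - p ^ 2) * β - K * m = (m + 1) * l * (d * β - m)
      - d * (β * ((4 + 2 * r) * m - n + β + 2) + m * δ ^ 2) + m * β + 2 * m := by
    subst hβ' hK hd hp hβ
    linear_combination ((n - 2 * m) * m) * hr
  rw [e]
  have h1 : d * (β * ((4 + 2 * r) * m - n + β + 2) + m * δ ^ 2) ≤
      d * (β * ((4 + 2 * r) * m - n + 5)) := by
    apply mul_le_mul_of_nonneg_left _ hd0
    nlinarith
  nlinarith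

lemma step_gen (n P k : ℕ) (hn : n = P + k + 2) (r δ l : ℝ) (hr : r ^ 2 = 2) (hr1 : 1.4 < r)
    (hr2 : r < 1.42) (hδ0 : 0 ≤ δ)  (hδ1 : δ ^ 2 * n ≤ 1) (hl : 0 ≤ l)
    (hn4 : 10 ≤ n) (hm : ((k : ℝ) + 1) * 6 ≤ n) (hB : B (P + 1) k (r + δ))
    (main : ((P : ℝ) - k) * (r + δ) * ((4 + 2 * r) * ((k : ℝ) + 1) - n + 5) ≤
      (((k : ℝ) + 1) + 1) * l * (((P : ℝ) - k) * (r + δ) - ((k : ℝ) + 1))) :
    B P (k + 1) (r + δ - l) := by
  have hnr : (n : ℝ) = P + k + 2 := by rw [hn]; push_cast; ring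
  have hn4' : (10 : ℝ) ≤ n := by exact_mod_cast hn4
  have hk0 : (0 : ℝ) ≤ k := Nat.cast_nonneg k
  have hd : (P : ℝ) - k = n - 2 * ((k : ℝ) + 1) := by rw [hnr]; ring
  have hp : (P : ℝ) + 1 = n - ((k : ℝ) + 1) := by rw [hnr]; ring
  have hδ2 : δ ≤ 0.5 := by
    by_contra hcon
    push Not at hcon
    nlinarith
  have hd0 : 0 ≤ (P : ℝ) - k := by rw [hd]; linarith
  have hK0 : 0 ≤ 2 * ((P : ℝ) - k - 1) - ((k : ℝ) + 2) * (r + δ - l) := by
    have h1 : ((k : ℝ) + 2) * (r + δ - l) ≤ ((k : ℝ) + 2) * 2 :=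
      mul_le_mul_of_nonneg_left (by linarith) (by linarith)
    linarith
  have h2 := ineq1 (n := n) (m := (k : ℝ) + 1) (d := (P : ℝ) - k) (p := (P : ℝ) + 1)
    (β := r + δ) (β' := r + δ - l) (l := l) (r := r) (δ := δ)
    (K := 2 * ((P : ℝ) - k - 1) - ((k : ℝ) + 2) * (r + δ - l)) hr hd hp rfl
    (by nlinarith [sq_nonneg δ]) (by linarith) (by linarith) (by linarith) hd0 rfl
    (by ring) main
  apply B_step P k (r + δ) (r + δ - l) _ hB rfl _ h2 _ hd0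
  · have h3 : 0 ≤ ((2 * ((P : ℝ) - k - 1) - ((k : ℝ) + 2) * (r + δ - l)) * ((P : ℝ) - k) -
        ((P : ℝ) + 1) ^ 2) * (r + δ) := by
      have := mul_nonneg hK0 (show (0 : ℝ) ≤ (k : ℝ) + 1 by linarith)
      linarith
    exact (mul_nonneg_iff_of_pos_right (by linarith)).1 h3
  · have : ((P : ℝ) - k) * 1.4 ≤ ((P : ℝ) - k) * (r + δ) :=
      mul_le_mul_of_nonneg_left (by linarith) hd0
    linarith

/-- first phase -/
lemma phase1 (w : ℕ) (hw : 10 ≤ w) (r : ℝ) (hr : r ^ 2 = 2) (hr1 : 1.4 < r) (hr2 : r < 1.42) :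
    ∀ k : ℕ, (4 + 2 * r) * k ≤ (w : ℝ) ^ 2 - 5 → B (w ^ 2 - 1 - k) k (r + 1 / w) := by
  have hw' : (10 : ℝ) ≤ w := by exact_mod_cast hw
  have hwp : (0 : ℝ) < w := by linarith
  have h1w : (1 : ℝ) / w ≤ 0.1 := by
    rw [div_le_iff₀ hwp]; linarith
  intro k
  induction k with
  | zero =>
    intro _
    apply B_start
    have : ((w ^ 2 - 1 - 0 : ℕ) : ℝ) = (w : ℝ) ^ 2 - 1 := by
      rw [Nat.sub_zero, Nat.cast_sub (by nlinarith)]
      push_cast; ring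
    rw [this]
    nlinarith
  | succ k ih =>
    intro hk
    push_cast at hk
    have hk0 : (0 : ℝ) ≤ k := Nat.cast_nonneg k
    have hB := ih (by nlinarith)
    have hkn : k + 2 ≤ w ^ 2 := by
      have : ((k : ℝ) + 2) ≤ (w : ℝ) ^ 2 := by nlinarith
      exact_mod_cast this
    have e1 : w ^ 2 - 1 - k = (w ^ 2 - 1 - (k + 1)) + 1 := by omega
    rw [e1] at hB
    have hres := step_gen (w ^ 2) (w ^ 2 - 1 - (k + 1)) k (by omega) r (1 / w) 0 hr hr1 hr2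
      (by positivity)
      (by
        push_cast
        rw [div_pow, one_pow, one_div, inv_mul_cancel₀ (by positivity)])
      le_rfl (by nlinarith) (by push_cast; nlinarith) hB
      (by
        have hd0 : (0 : ℝ) ≤ ((w ^ 2 - 1 - (k + 1) : ℕ) : ℝ) - k := by
          have : ((w ^ 2 - 1 - (k + 1) : ℕ) : ℝ) = (w : ℝ) ^ 2 - 1 - (k + 1) := by
            rw [Nat.sub_sub, Nat.cast_sub (by omega)]
            push_cast; ring
          rw [this]; nlinarith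
        have h0 : (0 : ℝ) ≤ (((w ^ 2 - 1 - (k + 1) : ℕ) : ℝ) - k) * (r + 1 / w) :=
          mul_nonneg hd0 (by positivity)
        have h1 : (4 + 2 * r) * ((k : ℝ) + 1) - ((w ^ 2 : ℕ) : ℝ) + 5 ≤ 0 := by
          push_cast; linarith
        have := mul_nonpos_of_nonneg_of_nonpos h0 h1
        linarith)
    rw [sub_zero] at hres
    exact hres

lemma main2 {w D r β d m l : ℝ} (hw0 : 0 < w ^ 2) (hD0 : 0 ≤ D) (hl : l = 28 * (D + 5) / w ^ 2)
    (hβ1 : 1.4 ≤ β) (hd : d = w ^ 2 - 2 * m) (h6 : m * 6 ≤ w ^ 2) (h7 : w ^ 2 ≤ (m + 1) * 7)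
    (hm : (4 + 2 * r) * m ≤ w ^ 2 + D) :
    d * β * ((4 + 2 * r) * m - w ^ 2 + 5) ≤ (m + 1) * l * (d * β - m) := by
  have hdn : w ^ 2 * (2 / 3) ≤ d := by rw [hd]; linarith
  have hd0 : 0 ≤ d := le_trans (by positivity) hdn
  have h1 : (4 + 2 * r) * m - w ^ 2 + 5 ≤ D + 5 := by linarith
  have h2 : d * β * ((4 + 2 * r) * m - w ^ 2 + 5) ≤ d * β * (D + 5) :=
    mul_le_mul_of_nonneg_left h1 (by positivity)
  have h4 : 4 * (D + 5) ≤ (m + 1) * l := by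
    rw [hl, ← mul_div_assoc, le_div_iff₀ hw0]
    have := mul_le_mul_of_nonneg_left h7 (show 0 ≤ 4 * (D + 5) by positivity)
    linarith
  have hdβ : d * 1.4 ≤ d * β := mul_le_mul_of_nonneg_left hβ1 hd0
  have h5 : 0 ≤ d * β - m := by linarith
  have h6 : 4 * (D + 5) * (d * β - m) ≤ (m + 1) * l * (d * β - m) :=
    mul_le_mul_of_nonneg_right h4 h5
  have h7 : d * β ≤ 4 * (d * β - m) := by linarith
  have h8 : d * β * (D + 5) ≤ 4 * (d * β - m) * (D + 5) :=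
    mul_le_mul_of_nonneg_right h7 (by positivity)
  linarith

/-- second phase -/
lemma phase2 (w D : ℕ) (hw : 1000 * (D + 6) ^ 2 ≤ w) (r : ℝ) (hr : r ^ 2 = 2) (hr1 : 1.4 < r)
    (hr2 : r < 1.42) (k0 : ℕ) (hk0 : (4 + 2 * r) * k0 ≤ (w : ℝ) ^ 2 - 5)
    (hk1 : (w : ℝ) ^ 2 - 5 < (4 + 2 * r) * ((k0 : ℝ) + 1)) :
    ∀ j : ℕ, (4 + 2 * r) * ((k0 : ℝ) + j) ≤ (w : ℝ) ^ 2 + D →
      B (w ^ 2 - 1 - (k0 + j)) (k0 + j) (r + (1 / w - j * (28 * (D + 5) / (w : ℝ) ^ 2))) := by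
  have hD0 : (0 : ℝ) ≤ D := Nat.cast_nonneg D
  have hw1 : (1000 : ℝ) * ((D : ℝ) + 6) ^ 2 ≤ w := by exact_mod_cast hw
  have hw2 : (1000 : ℝ) * (D + 6) ≤ w := by nlinarith
  have hw' : (10 : ℝ) ≤ w := by nlinarith
  have hw10 : 10 ≤ w := by exact_mod_cast hw'
  have hwp : (0 : ℝ) < w := by linarith
  have h1w : (1 : ℝ) / w ≤ 0.1 := by
    rw [div_le_iff₀ hwp]; linarith
  have hk00 : (0 : ℝ) ≤ k0 := Nat.cast_nonneg k0
  set l : ℝ := 28 * (D + 5) / (w : ℝ) ^ 2 with hl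
  have hl0 : 0 ≤ l := by positivity
  have hlw : (D + 6) * l ≤ 1 / (2 * w) := by
    rw [hl, ← mul_div_assoc, div_le_div_iff₀ (by positivity) (by positivity)]
    nlinarith [mul_le_mul_of_nonneg_right hw1 hwp.le]
  have hwD : 1000 * ((D : ℝ) + 6) ≤ (w : ℝ) ^ 2 := by nlinarith
  have hw2n : 10 ≤ w ^ 2 := by nlinarith
  intro j
  induction j with
  | zero =>
    intro _
    have := phase1 w hw10 r hr hr1 hr2 k0 hk0
    simpa using this
  | succ j ih =>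
    intro hj
    push_cast at hj
    have hj0 : (0 : ℝ) ≤ j := Nat.cast_nonneg j
    have hs : (0 : ℝ) ≤ (k0 : ℝ) + j := by positivity
    have hs1 : 1.4 * ((k0 : ℝ) + j) ≤ r * ((k0 : ℝ) + j) :=
      mul_le_mul_of_nonneg_right hr1.le hs
    have hs2 : r * ((k0 : ℝ) + j) ≤ 1.42 * ((k0 : ℝ) + j) :=
      mul_le_mul_of_nonneg_right hr2.le hs
    have hs3 : r * (k0 : ℝ) ≤ 1.42 * (k0 : ℝ) :=
      mul_le_mul_of_nonneg_right hr2.le hk00
    have hs4 : 1.4 * (j : ℝ) ≤ r * (j : ℝ) :=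
      mul_le_mul_of_nonneg_right hr1.le hj0
    have hB := ih (by linarith)
    have hkn : (k0 + j) + 2 ≤ w ^ 2 := by
      have : ((k0 : ℝ) + j + 2) ≤ (w : ℝ) ^ 2 := by linarith
      exact_mod_cast this
    have hjD : (j : ℝ) + 1 ≤ D + 6 := by linarith
    have e1 : w ^ 2 - 1 - (k0 + j) = (w ^ 2 - 1 - (k0 + j + 1)) + 1 := by omega
    rw [e1] at hB
    have hjl : ((j : ℝ) + 1) * l ≤ 1 / (2 * w) :=
      le_trans (mul_le_mul_of_nonneg_right hjD hl0) hlw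
    have h2w : (1 : ℝ) / (2 * w) ≤ 1 / w := by
      apply div_le_div_of_nonneg_left (by norm_num) hwp (by linarith)
    have hjl0 : 0 ≤ (j : ℝ) * l := mul_nonneg hj0 hl0
    have hkc : (((k0 + j : ℕ) : ℝ)) = (k0 : ℝ) + j := by push_cast; ring
    have hP : ((w ^ 2 - 1 - (k0 + j + 1) : ℕ) : ℝ) = (w : ℝ) ^ 2 - 1 - ((k0 : ℝ) + j + 1) := by
      rw [Nat.sub_sub, Nat.cast_sub (by omega)]
      push_cast; ring
    have hres := step_gen (w ^ 2) (w ^ 2 - 1 - (k0 + j + 1)) (k0 + j) (by omega) r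
      (1 / w - j * l) l hr hr1 hr2 (by linarith)
      (by
        have h3 : (1 / (w : ℝ) - j * l) ^ 2 ≤ (1 / (w : ℝ)) ^ 2 := by
          apply pow_le_pow_left₀ (by linarith) (by linarith)
        push_cast
        calc (1 / (w : ℝ) - j * l) ^ 2 * (w : ℝ) ^ 2 ≤ (1 / (w : ℝ)) ^ 2 * (w : ℝ) ^ 2 :=
              mul_le_mul_of_nonneg_right h3 (by positivity)
          _ = 1 := by rw [← mul_pow, one_div, inv_mul_cancel₀ hwp.ne', one_pow])
      hl0 hw2n (by rw [hkc]; push_cast; linarith) hB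
      (by
        rw [hkc, hP]
        push_cast
        have e4 : (w : ℝ) ^ 2 - 1 - ((k0 : ℝ) + j + 1) - ((k0 : ℝ) + j) =
          (w : ℝ) ^ 2 - 2 * ((k0 : ℝ) + j + 1) := by ring
        rw [e4]
        exact main2 (by positivity) hD0 hl (by linarith) rfl (by linarith) (by linarith)
          (by linarith))
    have e2 : k0 + (j + 1) = k0 + j + 1 := by ring
    rw [e2]
    have e3 : r + (1 / (w : ℝ) - ((j + 1 : ℕ) : ℝ) * l) = r + (1 / w - j * l) - l := by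
      push_cast; ring
    rw [e3]
    exact hres

lemma B_mono {p k : ℕ} {β β' : ℝ} (h : B p k β) (hb : β' ≤ β) : B p k β' :=
  ⟨h.1, le_trans (mul_le_mul_of_nonneg_right hb h.1.le) h.2⟩

theorem barrier (w D : ℕ) (hw : 1000 * (D + 6) ^ 2 ≤ w) (r : ℝ) (hr : r ^ 2 = 2) (hr1 : 1.4 < r)
    (hr2 : r < 1.42) (k : ℕ) (hk : (4 + 2 * r) * (k : ℝ) ≤ (w : ℝ) ^ 2 + D) :
    B (w ^ 2 - 1 - k) k (r + 1 / (2 * w)) := by
  have hD0 : (0 : ℝ) ≤ D := Nat.cast_nonneg D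
  have hw1 : (1000 : ℝ) * ((D : ℝ) + 6) ^ 2 ≤ w := by exact_mod_cast hw
  have hw2 : (1000 : ℝ) * (D + 6) ≤ w := by nlinarith
  have hw' : (10 : ℝ) ≤ w := by nlinarith
  have hw10 : 10 ≤ w := by exact_mod_cast hw'
  have hwp : (0 : ℝ) < w := by linarith
  have h2w : (1 : ℝ) / (2 * w) ≤ 1 / w := by
    apply div_le_div_of_nonneg_left (by norm_num) hwp (by linarith)
  by_cases h1 : (4 + 2 * r) * (k : ℝ) ≤ (w : ℝ) ^ 2 - 5
  · exact B_mono (phase1 w hw10 r hr hr1 hr2 k h1) (by linarith)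
  · push Not at h1
    set a : ℝ := 4 + 2 * r with ha
    have ha0 : 0 < a := by rw [ha]; linarith
    have hw25 : 0 ≤ ((w : ℝ) ^ 2 - 5) / a := div_nonneg (by nlinarith) ha0.le
    set k0 : ℕ := ⌊((w : ℝ) ^ 2 - 5) / a⌋₊ with hk0
    have hk0a : a * k0 ≤ (w : ℝ) ^ 2 - 5 := by
      have := Nat.floor_le hw25
      rw [← hk0, le_div_iff₀ ha0] at this
      linarith
    have hk0b : (w : ℝ) ^ 2 - 5 < a * ((k0 : ℝ) + 1) := by
      have := Nat.lt_floor_add_one (((w : ℝ) ^ 2 - 5) / a)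
      rw [← hk0, div_lt_iff₀ ha0] at this
      linarith
    have hkk : k0 ≤ k := by
      have : (k0 : ℝ) < k + 1 := by nlinarith
      have : (k0 : ℝ) < ((k + 1 : ℕ) : ℝ) := by push_cast; exact this
      have := Nat.cast_lt.1 this
      omega
    obtain ⟨j, rfl⟩ := Nat.exists_eq_add_of_le hkk
    push_cast at hk
    have hres := phase2 w D hw r hr hr1 hr2 k0 hk0a hk0b j hk
    apply B_mono hres
    have hjD : (j : ℝ) ≤ D + 6 := by nlinarith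
    set l : ℝ := 28 * (D + 5) / (w : ℝ) ^ 2 with hl
    have hl0 : 0 ≤ l := by positivity
    have hlw : (D + 6) * l ≤ 1 / (2 * w) := by
      rw [hl, ← mul_div_assoc, div_le_div_iff₀ (by positivity) (by positivity)]
      nlinarith [mul_le_mul_of_nonneg_right hw1 hwp.le]
    have hjl : (j : ℝ) * l ≤ 1 / (2 * w) :=
      le_trans (mul_le_mul_of_nonneg_right hjD hl0) hlw
    have : (1 : ℝ) / w = 1 / (2 * w) + 1 / (2 * w) := by field_simp; norm_num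
    linarith

end Q234.FC
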