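import Mathlib
import Pool.Agent.Q234.FCW

set_option autoImplicit false

/-!
# Path sums of Feynman checkers
-/

namespace Q234.FC

open Finset

/-- number of turns -/
def turns {n : ℕ} (s : Fin (n + 1) → Bool) : ℕ :=
  (Finset.univ.filter (fun i : Fin n => s i.castSucc ≠ s i.succ)).card

/-- final position -/
def pos {n : ℕ} (s : Fin (n + 1) → Bool) : ℤ := ∑ i, (if s i then (1 : ℤ) else -1)

lemma turns_snoc {n : ℕ} (s : Fin (n + 1) → Bool) (b : Bool) :
    turns (Fin.snoc s b : Fin (n + 2) → Bool) = turns s + (if s (Fin.last n) ≠ b then 1 else 0) := by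
  unfold turns
  rw [Finset.card_filter, Finset.card_filter, Fin.sum_univ_castSucc]
  congr 1
  · apply Finset.sum_congr rfl
    intro i _
    have h1 : (Fin.snoc s b : Fin (n + 2) → Bool) (i.castSucc.castSucc) = s i.castSucc :=
      Fin.snoc_castSucc (α := fun _ => Bool) _ _ _
    have h2 : (Fin.snoc s b : Fin (n + 2) → Bool) (i.castSucc.succ) = s i.succ := by
      rw [Fin.succ_castSucc]
      exact Fin.snoc_castSucc (α := fun _ => Bool) _ _ _
    rw [h1, h2]
  · have h1 : (Fin.snoc s b : Fin (n + 2) → Bool) ((Fin.last n).castSucc) = s (Fin.last n) :=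
      Fin.snoc_castSucc (α := fun _ => Bool) _ _ _
    have h2 : (Fin.snoc s b : Fin (n + 2) → Bool) ((Fin.last n).succ) = b := by
      rw [Fin.succ_last]
      exact Fin.snoc_last (α := fun _ => Bool) _ _
    rw [h1, h2]

lemma pos_snoc {n : ℕ} (s : Fin (n + 1) → Bool) (b : Bool) :
    pos (Fin.snoc s b : Fin (n + 2) → Bool) = pos s + (if b then 1 else -1) := by
  unfold pos
  rw [Fin.sum_univ_castSucc]
  congr 1
  · apply Finset.sum_congr rfl
    intro i _
    have h1 : (Fin.snoc s b : Fin (n + 2) → Bool) (i.castSucc) = s i :=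
      Fin.snoc_castSucc (α := fun _ => Bool) _ _ _
    rw [h1]
  · have h2 : (Fin.snoc s b : Fin (n + 2) → Bool) (Fin.last (n + 1)) = b :=
      Fin.snoc_last (α := fun _ => Bool) _ _
    rw [h2]

/-- amplitude with given last step -/
noncomputable def A (n : ℕ) (b : Bool) (x : ℤ) : ℂ :=
  ∑ s : Fin (n + 1) → Bool,
    if s 0 = true ∧ pos s = x ∧ s (Fin.last n) = b then (-Complex.I) ^ (turns s) else 0

lemma A_succ (n : ℕ) (b : Bool) (x : ℤ) :
    A (n + 1) b x = A n true (x - (if b then 1 else -1)) * (if true ≠ b then (-Complex.I) else 1) +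
      A n false (x - (if b then 1 else -1)) * (if false ≠ b then (-Complex.I) else 1) := by
  unfold A
  rw [← (Fin.snocEquiv (fun _ : Fin (n + 2) => Bool)).sum_comp, Fintype.sum_prod_type,
    Finset.sum_comm]
  rw [Finset.sum_mul, Finset.sum_mul, ← Finset.sum_add_distrib]
  apply Finset.sum_congr rfl
  intro s _
  rw [Fintype.sum_bool]
  have key : ∀ c : Bool, (Fin.snocEquiv (fun _ : Fin (n + 2) => Bool)) (c, s) =
      (Fin.snoc s c : Fin (n + 2) → Bool) := fun c => rfl
  simp only [key]
  have h0 : ∀ c : Bool, (Fin.snoc s c : Fin (n + 2) → Bool) 0 = s 0 := by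
    intro c
    exact Fin.snoc_castSucc (α := fun _ => Bool) c s 0
  have hl : ∀ c : Bool, (Fin.snoc s c : Fin (n + 2) → Bool) (Fin.last (n + 1)) = c := by
    intro c
    exact Fin.snoc_last (α := fun _ => Bool) _ _
  simp only [h0, hl, pos_snoc, turns_snoc]
  rcases hb : s (Fin.last n) with _ | _ <;> rcases b with _ | _ <;>
    simp [pow_succ, eq_sub_iff_add_eq, sub_eq_add_neg] <;>
    by_cases h1 : s 0 = true <;> simp [h1]
  all_goals (split_ifs <;> first | rfl | (exfalso; omega) | simp)

lemma A_true_succ (n : ℕ) (x : ℤ) :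
    A (n + 1) true x = A n true (x - 1) + A n false (x - 1) * (-Complex.I) := by
  rw [A_succ]; simp

lemma A_false_succ (n : ℕ) (x : ℤ) :
    A (n + 1) false x = A n true (x + 1) * (-Complex.I) + A n false (x + 1) := by
  rw [A_succ]; simp

lemma fun_fin_one (s : Fin (0 + 1) → Bool) : s = fun _ => s 0 := by
  funext i
  have : i = 0 := Fin.ext (by have := i.isLt; simp)
  rw [this]

lemma A_zero_true (x : ℤ) : A 0 true x = if x = 1 then 1 else 0 := by
  unfold A
  rw [Finset.sum_eq_single (fun _ => true)]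
  · simp [turns, pos, eq_comm]
  · intro s _ hs
    rw [if_neg]
    rintro ⟨h, -⟩
    apply hs
    rw [fun_fin_one s, h]
  · intro h
    exact absurd (Finset.mem_univ _) h

lemma A_zero_false (x : ℤ) : A 0 false x = 0 := by
  unfold A
  apply Finset.sum_eq_zero
  intro s _
  rw [if_neg]
  rintro ⟨h, -, h'⟩
  have : (Fin.last 0 : Fin (0 + 1)) = 0 := rfl
  rw [this] at h'
  rw [h'] at h
  exact absurd h (by decide)

/-- coefficient for last step right -/
def U : ℕ → ℕ → ℤ
  | _, 0 => 1
  | p, m + 1 => W p (m + 1) - W p m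

/-- coefficient for last step left -/
def V : ℕ → ℕ → ℤ
  | _, 0 => 0
  | p, m + 1 => W p m

lemma U_succ (p m : ℕ) : U (p + 1) m = U p m - V p m := by
  rcases m with _ | m
  · simp [U, V]
  · simp only [U, V, W_succ]; ring

lemma U_zero (m : ℕ) : U 0 (m + 1) = 0 := by
  simp [U]

lemma V_succ (p m : ℕ) : V p (m + 1) = V p m + U p m := by
  rcases m with _ | m
  · simp [U, V]
  · simp only [U, V]; ring

theorem A_val (n : ℕ) :
    (∀ m, m ≤ n → A n true ((n : ℤ) + 1 - 2 * m) = (U (n - m) m : ℂ) ∧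
      A n false ((n : ℤ) + 1 - 2 * m) = -Complex.I * (V (n - m) m : ℂ)) ∧
    (∀ x : ℤ, (∀ m : ℕ, m ≤ n → x ≠ (n : ℤ) + 1 - 2 * m) → A n true x = 0 ∧ A n false x = 0) := by
  induction n with
  | zero =>
    refine ⟨?_, ?_⟩
    · intro m hm
      have : m = 0 := by omega
      subst this
      simp [A_zero_true, A_zero_false, U, V]
    · intro x hx
      have := hx 0 le_rfl
      rw [A_zero_true, A_zero_false, if_neg]
      · exact ⟨rfl, rfl⟩
      · intro h; apply this; simp [h]
  | succ n ih =>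
    obtain ⟨ih1, ih2⟩ := ih
    refine ⟨?_, ?_⟩
    · intro m hm
      refine ⟨?_, ?_⟩
      · rw [A_true_succ]
        have e : ((n + 1 : ℕ) : ℤ) + 1 - 2 * m - 1 = (n : ℤ) + 1 - 2 * m := by push_cast; ring
        rw [e]
        rcases Nat.lt_or_ge n m with h | h
        · have hm' : m = n + 1 := by omega
          subst hm'
          obtain ⟨h1, h2⟩ := ih2 ((n : ℤ) + 1 - 2 * ((n + 1 : ℕ) : ℤ)) (by
            intro m' hm' h
            push_cast at h
            omega)
          rw [h1, h2, Nat.sub_self, U_zero]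
          simp
        · obtain ⟨h1, h2⟩ := ih1 m h
          rw [h1, h2]
          have e2 : n + 1 - m = (n - m) + 1 := by omega
          rw [e2, U_succ]
          push_cast
          linear_combination (V (n - m) m : ℂ) * Complex.I_mul_I
      · rw [A_false_succ]
        rcases m with _ | m
        · obtain ⟨h1, h2⟩ := ih2 (((n + 1 : ℕ) : ℤ) + 1 - 2 * ((0 : ℕ) : ℤ) + 1) (by
            intro m' hm' h
            push_cast at h
            omega)
          rw [h1, h2]
          simp [V]
        · have e : ((n + 1 : ℕ) : ℤ) + 1 - 2 * ((m + 1 : ℕ) : ℤ) + 1 = (n : ℤ) + 1 - 2 * m := by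
            push_cast; ring
          rw [e]
          obtain ⟨h1, h2⟩ := ih1 m (by omega)
          rw [h1, h2]
          have e2 : n + 1 - (m + 1) = n - m := by omega
          rw [e2, V_succ]
          push_cast
          ring
    · intro x hx
      rw [A_true_succ, A_false_succ]
      obtain ⟨h1, h2⟩ := ih2 (x - 1) (by
        intro m' hm' h
        apply hx m' (by omega)
        push_cast
        linarith)
      obtain ⟨h3, h4⟩ := ih2 (x + 1) (by
        intro m' hm' h
        apply hx (m' + 1) (by omega)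
        push_cast
        linarith)
      rw [h1, h2, h3, h4]
      simp

/-- total amplitude -/
theorem total_eq (n : ℕ) (x : ℤ) :
    ∑ s ∈ Finset.univ.filter
      (fun s : Fin (n+1) → Bool => s 0 = true ∧ ∑ i, (if s i then (1:ℤ) else -1) = x),
      (-Complex.I) ^ ((Finset.univ.filter
        (fun i : Fin n => s i.castSucc ≠ s i.succ)).card) = A n true x + A n false x := by
  unfold A
  rw [← Finset.sum_add_distrib, Finset.sum_filter]
  apply Finset.sum_congr rfl
  intro s _
  change (if s 0 = true ∧ pos s = x then (-Complex.I) ^ turns s else 0) = _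
  rcases hb : s (Fin.last n) with _ | _ <;> simp

lemma normSq_form (u v : ℤ) : ‖(u : ℂ) + -Complex.I * (v : ℂ)‖ ^ 2 = (u : ℝ) ^ 2 + (v : ℝ) ^ 2 := by
  rw [← Complex.normSq_eq_norm_sq, Complex.normSq_apply]
  simp
  ring

theorem total_norm (n m : ℕ) (hm : m ≤ n) :
    ‖A n true ((n : ℤ) + 1 - 2 * m) + A n false ((n : ℤ) + 1 - 2 * m)‖ ^ 2 =
      (U (n - m) m : ℝ) ^ 2 + (V (n - m) m : ℝ) ^ 2 := by
  obtain ⟨h1, h2⟩ := (A_val n).1 m hm
  rw [h1, h2, normSq_form]

theorem total_norm_zero (n : ℕ) (x : ℤ) (hx : ∀ m : ℕ, m ≤ n → x ≠ (n : ℤ) + 1 - 2 * m) :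
    ‖A n true x + A n false x‖ ^ 2 = 0 := by
  obtain ⟨h1, h2⟩ := (A_val n).2 x hx
  rw [h1, h2]; simp

end Q234.FC
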