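import Mathlib
import Pool.Agent.Q234.FCW
import Pool.Agent.Q234.FCPath
import Pool.Agent.Q234.FCAna

set_option autoImplicit false

/-!
# The probability increases strictly through the window around `t / √2`
-/

namespace Q234.FC

/-- squared norm of the (unnormalised) amplitude -/
noncomputable def R (n m : ℕ) : ℝ := (U (n - m) m : ℝ) ^ 2 + (V (n - m) m : ℝ) ^ 2

lemma R_eq (n k : ℕ) :
    R n (k + 1) = (Xv (n - 1 - k) k + Yv (n - 1 - k) k) ^ 2 + (Yv (n - 1 - k) k) ^ 2 := by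
  unfold R Xv Yv U V
  have e : n - (k + 1) = n - 1 - k := by omega
  rw [e]
  push_cast
  have h1 : ((-1 : ℝ) ^ k) ^ 2 = 1 := by rw [← pow_mul, mul_comm, pow_mul]; norm_num
  rw [pow_succ (-1 : ℝ) k]
  linear_combination (-((W (n - 1 - k) (k + 1) : ℝ) - W (n - 1 - k) k) ^ 2 -
    (W (n - 1 - k) k : ℝ) ^ 2) * h1

lemma final_ineq {n w r e m d p ρ D : ℝ} (hn : n = w ^ 2) (hr : r ^ 2 = 2) (hr1 : 1.4 < r)
    (hr2 : r < 1.42) (hD : 1 ≤ D) (hw : 1000 * D ≤ w) (he1 : e ≤ D) (he2 : -D ≤ e)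
    (hm : m = n * (2 - r) / 4 + e) (hd : d = n - 2 * m) (hp : p = n - m)
    (hρ : ρ = r + 1 / (2 * w)) :
    n < d * ρ ∧ 0 ≤ (2 * d + m - 1) * d - p * (n + 1) ∧
      p * (m + 1) + m * (2 * d + m - 1) ≤ ((2 * d + m - 1) * d - p * (n + 1)) * ρ := by
  have hw0 : 0 < w := by linarith
  have hwi : w * (1 / (2 * w)) = 1 / 2 := by field_simp
  set v : ℝ := 1 / (2 * w) with hv
  have hv0 : 0 < v := by positivity
  have hv1 : v ≤ 1 := by
    rw [hv, div_le_one (by positivity)]; linarith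
  have hd' : d = n * r / 2 - 2 * e := by rw [hd, hm]; ring
  have heD : |e| ≤ D := abs_le.2 ⟨he2, he1⟩
  have X_eq : (2 * d + m - 1) * d - p * (n + 1) =
      n ^ 2 / 4 - n * (3 * r * e + 3 * r / 4 + 1 / 2) + 6 * e ^ 2 + 3 * e := by
    rw [hd', hp, hm]
    linear_combination (3 * n ^ 2 / 8 : ℝ) * hr
  have Y_eq : p * (m + 1) + m * (2 * d + m - 1) =
      r * (n ^ 2 / 4) + n * (e * (2 * r - 1) + r / 2) - 4 * e ^ 2 - 2 * e := by
    rw [hd', hp, hm]
    linear_combination (-(n ^ 2 / 4) : ℝ) * hr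
  have hre1 : r * e ≤ 1.42 * D := by
    have : r * e ≤ r * D := mul_le_mul_of_nonneg_left he1 (by linarith)
    have : r * D ≤ 1.42 * D := mul_le_mul_of_nonneg_right hr2.le (by linarith)
    linarith
  have hre2 : -(1.42 * D) ≤ r * e := by
    have : r * (-D) ≤ r * e := mul_le_mul_of_nonneg_left he2 (by linarith)
    have : r * D ≤ 1.42 * D := mul_le_mul_of_nonneg_right hr2.le (by linarith)
    linarith
  have hn0 : 0 ≤ n := by rw [hn]; positivity
  have hnD : 1000 * D * w ≤ n := by rw [hn]; nlinarith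
  have hnD2 : 1000 * D ≤ n := by nlinarith
  refine ⟨?_, ?_, ?_⟩
  · rw [hd', hρ, hn]
    have e1 : (w ^ 2 * r / 2 - 2 * e) * (r + v) =
      w ^ 2 * (r ^ 2 / 2) - 2 * (r * e) + w * r / 2 * (w * v) - 2 * e * v := by ring
    rw [e1, hr, hwi]
    have h2 : e * v ≤ D := by
      have : e * v ≤ D * v := mul_le_mul_of_nonneg_right he1 hv0.le
      nlinarith
    have h3 : 1.4 * w ≤ w * r := by nlinarith
    linarith
  · rw [X_eq]
    have h1 : n * (3 * r * e + 3 * r / 4 + 1 / 2) ≤ n * (9 * D) := by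
      apply mul_le_mul_of_nonneg_left _ hn0
      linarith
    nlinarith [sq_nonneg e]
  · have hX : n ^ 2 / 8 ≤ (2 * d + m - 1) * d - p * (n + 1) := by
      rw [X_eq]
      have h1 : n * (3 * r * e + 3 * r / 4 + 1 / 2) ≤ n * (9 * D) := by
        apply mul_le_mul_of_nonneg_left _ hn0
        linarith
      nlinarith [sq_nonneg e]
    rw [hρ, mul_add]
    have hXv : n ^ 2 / 8 * v ≤ ((2 * d + m - 1) * d - p * (n + 1)) * v :=
      mul_le_mul_of_nonneg_right hX hv0.le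
    have hnv : n ^ 2 / 8 * v = n * w / 16 := by
      rw [hn]
      have : (w ^ 2) ^ 2 / 8 * v = w ^ 3 / 8 * (w * v) := by ring
      rw [this, hwi]; ring
    rw [hnv] at hXv
    have hrXY : -(n * (18 * D)) ≤ ((2 * d + m - 1) * d - p * (n + 1)) * r -
        (p * (m + 1) + m * (2 * d + m - 1)) := by
      rw [X_eq, Y_eq]
      have h1 : n * (5 * e + 2 * (r * e) + 3 / 2 + r) ≤ n * (11 * D) := by
        apply mul_le_mul_of_nonneg_left _ hn0
        linarith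
      have h2 : -(D * n) ≤ 3 * (r * e) + 2 * e := by nlinarith
      have h3 : 0 ≤ (6 * r + 4) * e ^ 2 := by positivity
      have e5 : (n ^ 2 / 4 - n * (3 * r * e + 3 * r / 4 + 1 / 2) + 6 * e ^ 2 + 3 * e) * r -
        (r * (n ^ 2 / 4) + n * (e * (2 * r - 1) + r / 2) - 4 * e ^ 2 - 2 * e) =
        -(n * (5 * e + 2 * (r * e) + 3 / 2 + r)) + (6 * r + 4) * e ^ 2 + (3 * (r * e) + 2 * e) := by
        linear_combination (-(n * (3 * e + 3 / 4)) : ℝ) * hr
      rw [e5]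
      nlinarith
    have hlast : n * (18 * D) ≤ n * w / 16 := by
      rw [mul_div_assoc]
      apply mul_le_mul_of_nonneg_left _ hn0
      linarith
    linarith

lemma R_lt (w D k : ℕ) (hw : 1000 * (D + 6) ^ 2 ≤ w) (r : ℝ) (hr : r ^ 2 = 2) (hr1 : 1.4 < r)
    (hr2 : r < 1.42) (h1 : (4 + 2 * r) * ((k : ℝ) + 1) ≤ (w : ℝ) ^ 2 + D)
    (h2 : (w : ℝ) ^ 2 - D ≤ (4 + 2 * r) * ((k : ℝ) + 1)) :
    k + 2 ≤ w ^ 2 ∧ R (w ^ 2) (k + 1) < R (w ^ 2) (k + 2) := by
  have hD0 : (0 : ℝ) ≤ D := Nat.cast_nonneg D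
  have hk0 : (0 : ℝ) ≤ k := Nat.cast_nonneg k
  have hw1 : (1000 : ℝ) * ((D : ℝ) + 6) ^ 2 ≤ w := by exact_mod_cast hw
  have hw2 : (1000 : ℝ) * (D + 6) ≤ w := by nlinarith
  have hwp : (0 : ℝ) < w := by linarith
  have hww : (1000 : ℝ) * (D + 6) ≤ (w : ℝ) ^ 2 := by nlinarith
  have hs1 : 1.4 * ((k : ℝ) + 1) ≤ r * ((k : ℝ) + 1) :=
      mul_le_mul_of_nonneg_right hr1.le (by linarith)
  have hkn : k + 2 ≤ w ^ 2 := by
    have : ((k : ℝ) + 2) ≤ (w : ℝ) ^ 2 := by linarith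
    exact_mod_cast this
  refine ⟨hkn, ?_⟩
  have hB := barrier w D hw r hr hr1 hr2 k (by linarith)
  have eP : w ^ 2 - 1 - k = (w ^ 2 - 2 - k) + 1 := by omega
  have eP2 : w ^ 2 - 1 - (k + 1) = w ^ 2 - 2 - k := by omega
  have R1 := R_eq (w ^ 2) k
  have R2 := R_eq (w ^ 2) (k + 1)
  rw [eP2] at R2
  rw [eP] at hB R1
  set P := w ^ 2 - 2 - k with hP
  have hPn : (P : ℝ) + k + 2 = (w : ℝ) ^ 2 := by
    have : P + k + 2 = w ^ 2 := by omega
    exact_mod_cast this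
  have r1 := rel1 P k
  have r2 := rel2 P k
  obtain ⟨hy, hx⟩ := hB
  rw [R1, show k + 2 = k + 1 + 1 by rfl, R2]
  set x := Xv (P + 1) k
  set y := Yv (P + 1) k
  set x' := Xv P (k + 1)
  set y' := Yv P (k + 1)
  set ρ : ℝ := r + 1 / (2 * w) with hρ
  have hρ1 : 1 < ρ := by
    have : (0 : ℝ) < 1 / (2 * w) := by positivity
    rw [hρ]; linarith
  -- parameters
  have hdr : ((w : ℝ) ^ 2 * (2 - r) / 4) * (4 + 2 * r) = (w : ℝ) ^ 2 := by
    linear_combination (-((w : ℝ) ^ 2 / 2)) * hr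
  have he1 : ((k : ℝ) + 1) - (w : ℝ) ^ 2 * (2 - r) / 4 ≤ D + 6 := by
    by_contra hcon
    push Not at hcon
    nlinarith
  have he2 : -((D : ℝ) + 6) ≤ ((k : ℝ) + 1) - (w : ℝ) ^ 2 * (2 - r) / 4 := by
    by_contra hcon
    push Not at hcon
    nlinarith
  obtain ⟨f1, f2, f3⟩ := final_ineq (n := (w : ℝ) ^ 2) (w := w) (r := r)
    (e := ((k : ℝ) + 1) - (w : ℝ) ^ 2 * (2 - r) / 4) (m := (k : ℝ) + 1)
    (d := (P : ℝ) - k) (p := (P : ℝ) + 1) (ρ := ρ) (D := (D : ℝ) + 6) rfl hr hr1 hr2 (by linarith)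
    hw2 he1 he2 (by ring) (by linarith) (by linarith) rfl
  have hPd : (0 : ℝ) < (P : ℝ) - k := by
    by_contra hcon
    push Not at hcon
    have : ((P : ℝ) - k) * ρ ≤ 0 := mul_nonpos_of_nonpos_of_nonneg hcon (by linarith)
    nlinarith
  have hp : (0 : ℝ) < (P : ℝ) + 1 := by positivity
  have hm : (0 : ℝ) < (k : ℝ) + 2 := by positivity
  have hyy : y < y' := by
    have h3 : 0 < ((P : ℝ) + 1) * (y' - y) := by
      have e1 : ((P : ℝ) + 1) * (y' - y) = ((P : ℝ) - k) * x - (w : ℝ) ^ 2 * y := by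
        rw [← hPn]
        linear_combination r1
      rw [e1]
      have h4 : ((P : ℝ) - k) * (ρ * y) ≤ ((P : ℝ) - k) * x := mul_le_mul_of_nonneg_left hx hPd.le
      have h5 : (w : ℝ) ^ 2 * y < ((P : ℝ) - k) * ρ * y := mul_lt_mul_of_pos_right f1 hy
      linarith
    have := (mul_pos_iff_of_pos_left hp).1 h3
    linarith
  have hxx : x + y ≤ x' + y' := by
    have h3 : 0 ≤ ((P : ℝ) + 1) * (((k : ℝ) + 2) * ((x' + y') - (x + y))) := by
      have e1 : ((P : ℝ) + 1) * (((k : ℝ) + 2) * ((x' + y') - (x + y))) =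
          ((2 * ((P : ℝ) - k) + ((k : ℝ) + 1) - 1) * ((P : ℝ) - k) -
            ((P : ℝ) + 1) * ((w : ℝ) ^ 2 + 1)) * x -
          (((P : ℝ) + 1) * ((k : ℝ) + 1 + 1) +
            ((k : ℝ) + 1) * (2 * ((P : ℝ) - k) + ((k : ℝ) + 1) - 1)) * y := by
        rw [← hPn]
        linear_combination ((P : ℝ) + 1) * r2 + (2 * ((P : ℝ) - k) + k) * r1
      rw [e1]
      have h4 := mul_le_mul_of_nonneg_left hx f2
      have h5 := mul_le_mul_of_nonneg_right f3 hy.le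
      linarith
    have h4 := (mul_nonneg_iff_of_pos_left hp).1 h3
    have h5 := (mul_nonneg_iff_of_pos_left hm).1 h4
    linarith
  have hx0 : 0 < x := lt_of_lt_of_le (mul_pos (by linarith) hy) hx
  have h6 : (x + y) ^ 2 ≤ (x' + y') ^ 2 := pow_le_pow_left₀ (by linarith) hxx 2
  have h7 : y ^ 2 < y' ^ 2 := pow_lt_pow_left₀ hyy hy.le (by norm_num)
  linarith

end Q234.FC
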