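import Mathlib

set_option autoImplicit false

/-!
# Tensor products of one-qubit matrices, Pauli strings, local unitary equivalence
-/

namespace Q234.LU

open Matrix

/-- one-qubit Pauli labels -/
inductive Pauli
  | I
  | X
  | Y
  | Z
  deriving DecidableEq

/-- the Pauli matrices -/
noncomputable def pauli : Pauli → Matrix (Fin 2) (Fin 2) ℂ
  | Pauli.I => 1
  | Pauli.X => !![0, 1; 1, 0]
  | Pauli.Y => !![0, -Complex.I; Complex.I, 0]
  | Pauli.Z => !![1, 0; 0, -1]

/-- the operator `M₁ ⊗ ⋯ ⊗ Mₙ` on `(ℂ²)^{⊗ n}` in the computational basis -/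
noncomputable def tens {n : ℕ} (M : Fin n → Matrix (Fin 2) (Fin 2) ℂ) :
    Matrix (Fin n → Fin 2) (Fin n → Fin 2) ℂ :=
  Matrix.of fun x y => ∏ i, M i (x i) (y i)

/-- the qubit permutation operator, sending the basis vector `e_y` to `e_{y ∘ π}` -/
def permOp {n : ℕ} (π : Equiv.Perm (Fin n)) : Matrix (Fin n → Fin 2) (Fin n → Fin 2) ℂ :=
  Matrix.of fun x y => if x = y ∘ π then 1 else 0

/-- the Pauli string `σ_{s 0} ⊗ ⋯ ⊗ σ_{s (n-1)}` -/
noncomputable def pauliString {n : ℕ} (s : Fin n → Pauli) :
    Matrix (Fin n → Fin 2) (Fin n → Fin 2) ℂ := tens (fun i => pauli (s i))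

/-- the codespace: common fixed vectors of the generators -/
noncomputable def codeSpace {n m : ℕ} (G : Fin m → Fin n → Pauli) :
    Submodule ℂ ((Fin n → Fin 2) → ℂ) where
  carrier := {ψ | ∀ j, (pauliString (G j)).mulVec ψ = ψ}
  add_mem' := by
    intro a b ha hb j
    rw [mulVec_add, ha j, hb j]
  zero_mem' := by
    intro j
    rw [mulVec_zero]
  smul_mem' := by
    intro c a ha j
    rw [mulVec_smul, ha j]

/-- two codespaces are locally unitarily equivalent -/
def LUEquiv {n : ℕ} (Q Q' : Submodule ℂ ((Fin n → Fin 2) → ℂ)) : Prop :=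
  ∃ (U : Fin n → Matrix (Fin 2) (Fin 2) ℂ) (π : Equiv.Perm (Fin n)),
    (∀ i, U i ∈ Matrix.unitaryGroup (Fin 2) ℂ) ∧
      Q.map (Matrix.mulVecLin (tens U * permOp π)) = Q'

lemma tens_mul {n : ℕ} (M N : Fin n → Matrix (Fin 2) (Fin 2) ℂ) :
    tens M * tens N = tens (fun i => M i * N i) := by
  ext x y
  simp only [tens, Matrix.mul_apply, Matrix.of_apply]
  rw [Finset.prod_univ_sum, Fintype.piFinset_univ]
  apply Finset.sum_congr rfl
  intro z _
  rw [Finset.prod_mul_distrib]

lemma tens_one {n : ℕ} : tens (fun _ : Fin n => (1 : Matrix (Fin 2) (Fin 2) ℂ)) = 1 := by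
  ext x y
  simp only [tens, Matrix.of_apply, Matrix.one_apply]
  by_cases h : x = y
  · subst h; simp
  · rw [if_neg h]
    obtain ⟨i, hi⟩ := Function.ne_iff.1 h
    exact Finset.prod_eq_zero (Finset.mem_univ i) (if_neg hi)

lemma tens_trace {n : ℕ} (M : Fin n → Matrix (Fin 2) (Fin 2) ℂ) :
    (tens M).trace = ∏ i, (M i).trace := by
  simp only [tens, Matrix.trace, Matrix.diag_apply, Matrix.of_apply]
  rw [Finset.prod_univ_sum, Fintype.piFinset_univ]

lemma tens_smul {n : ℕ} (c : Fin n → ℂ) (M : Fin n → Matrix (Fin 2) (Fin 2) ℂ) :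
    tens (fun i => c i • M i) = (∏ i, c i) • tens M := by
  ext x y
  simp only [tens, Matrix.of_apply, Matrix.smul_apply, smul_eq_mul, Finset.prod_mul_distrib]

lemma permOp_mul_tens {n : ℕ} (π : Equiv.Perm (Fin n)) (M : Fin n → Matrix (Fin 2) (Fin 2) ℂ) :
    permOp π * tens M = tens (fun i => M (π i)) * permOp π := by
  ext x y
  simp only [permOp, tens, Matrix.mul_apply, Matrix.of_apply]
  rw [Finset.sum_eq_single (x ∘ π.symm), Finset.sum_eq_single (y ∘ π)]
  · have h1 : x = (x ∘ ⇑π.symm) ∘ ⇑π := by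
      funext i; simp
    rw [if_pos h1, if_pos rfl, one_mul, mul_one]
    rw [← Equiv.prod_comp π]
    simp
  · intro z _ hz
    rw [if_neg hz, mul_zero]
  · intro h; exact absurd (Finset.mem_univ _) h
  · intro z _ hz
    rw [if_neg, zero_mul]
    intro h
    apply hz
    funext i
    rw [h]; simp
  · intro h; exact absurd (Finset.mem_univ _) h

/-- conjugated string -/
lemma conj_tens {n : ℕ} (U : Fin n → Matrix (Fin 2) (Fin 2) ℂ) (π : Equiv.Perm (Fin n))
    (hU : ∀ i, U i ∈ Matrix.unitaryGroup (Fin 2) ℂ) (M : Fin n → Matrix (Fin 2) (Fin 2) ℂ) :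
    (tens U * permOp π) * tens M =
      tens (fun i => U i * M (π i) * star (U i)) * (tens U * permOp π) := by
  rw [Matrix.mul_assoc, permOp_mul_tens, ← Matrix.mul_assoc, ← Matrix.mul_assoc, tens_mul, tens_mul]
  congr 2
  funext i
  have := (Matrix.mem_unitaryGroup_iff').1 (hU i)
  rw [Matrix.mul_assoc, this, Matrix.mul_one]

lemma stab_transport {n m : ℕ} {m' : ℕ} (GA : Fin m → Fin n → Pauli) (GB : Fin m' → Fin n → Pauli)
    (U : Fin n → Matrix (Fin 2) (Fin 2) ℂ) (π : Equiv.Perm (Fin n))
    (hU : ∀ i, U i ∈ Matrix.unitaryGroup (Fin 2) ℂ)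
    (hmap : (codeSpace GA).map (Matrix.mulVecLin (tens U * permOp π)) = codeSpace GB)
    (j : Fin m) (ψ : (Fin n → Fin 2) → ℂ) (hψ : ψ ∈ codeSpace GB) :
    (tens (fun i => U i * pauli (GA j (π i)) * star (U i))).mulVec ψ = ψ := by
  rw [← hmap] at hψ
  obtain ⟨φ, hφ, rfl⟩ := Submodule.mem_map.1 hψ
  rw [Matrix.mulVecLin_apply, Matrix.mulVec_mulVec, ← conj_tens U π hU (fun i => pauli (GA j i)),
    ← Matrix.mulVec_mulVec]
  congr 1
  exact hφ j

/-- if a matrix has all columns in the codespace -/
lemma mul_eq_of_cols {n m : ℕ} (G : Fin m → Fin n → Pauli)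
    (T E : Matrix (Fin n → Fin 2) (Fin n → Fin 2) ℂ)
    (hE : ∀ j, pauliString (G j) * E = E)
    (hT : ∀ ψ ∈ codeSpace G, T.mulVec ψ = ψ) : T * E = E := by
  ext x y
  have h1 : (fun z => E z y) ∈ codeSpace G := by
    intro j
    funext z
    have := congrFun (congrFun (hE j) z) y
    simpa [Matrix.mul_apply, Matrix.mulVec, dotProduct] using this
  have h2 := congrFun (hT _ h1) x
  simpa [Matrix.mul_apply, Matrix.mulVec, dotProduct] using h2

/-- product of labels -/
def Pauli.mul : Pauli → Pauli → Pauli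
  | Pauli.I, t => t
  | s, Pauli.I => s
  | Pauli.X, Pauli.X => Pauli.I
  | Pauli.X, Pauli.Y => Pauli.Z
  | Pauli.X, Pauli.Z => Pauli.Y
  | Pauli.Y, Pauli.X => Pauli.Z
  | Pauli.Y, Pauli.Y => Pauli.I
  | Pauli.Y, Pauli.Z => Pauli.X
  | Pauli.Z, Pauli.X => Pauli.Y
  | Pauli.Z, Pauli.Y => Pauli.X
  | Pauli.Z, Pauli.Z => Pauli.I

/-- phases of the product -/
noncomputable def Pauli.ph : Pauli → Pauli → ℂ
  | Pauli.X, Pauli.Y => Complex.I
  | Pauli.X, Pauli.Z => -Complex.I
  | Pauli.Y, Pauli.X => -Complex.I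
  | Pauli.Y, Pauli.Z => Complex.I
  | Pauli.Z, Pauli.X => Complex.I
  | Pauli.Z, Pauli.Y => -Complex.I
  | _, _ => 1

lemma pauli_mul (s t : Pauli) : pauli s * pauli t = Pauli.ph s t • pauli (Pauli.mul s t) := by
  rcases s with _ | _ | _ | _ <;> rcases t with _ | _ | _ | _ <;>
    simp [pauli, Pauli.mul, Pauli.ph, Matrix.one_fin_two]

/-- sign of the commutation -/
def Pauli.sg : Pauli → Pauli → ℤ
  | Pauli.I, _ => 1
  | _, Pauli.I => 1
  | s, t => if s = t then 1 else -1

lemma pauli_comm (s t : Pauli) : pauli s * pauli t = (Pauli.sg s t : ℂ) • (pauli t * pauli s) := by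
  rcases s with _ | _ | _ | _ <;> rcases t with _ | _ | _ | _ <;>
    simp [pauli, Pauli.sg]

lemma string_comm {n : ℕ} (s t : Fin n → Pauli) (h : ∏ i, Pauli.sg (s i) (t i) = 1) :
    pauliString s * pauliString t = pauliString t * pauliString s := by
  unfold pauliString
  rw [tens_mul, tens_mul]
  have : (fun i => pauli (s i) * pauli (t i)) =
      fun i => (Pauli.sg (s i) (t i) : ℂ) • (pauli (t i) * pauli (s i)) := by
    funext i; exact pauli_comm _ _
  rw [this, tens_smul (fun i => (Pauli.sg (s i) (t i) : ℂ))]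
  have h2 : (∏ i, (Pauli.sg (s i) (t i) : ℂ)) = 1 := by
    exact_mod_cast h
  rw [h2, one_smul]

lemma pauli_sq (s : Pauli) : pauli s * pauli s = 1 := by
  rcases s with _ | _ | _ | _ <;> simp [pauli, Matrix.one_fin_two]

lemma string_sq {n : ℕ} (s : Fin n → Pauli) : pauliString s * pauliString s = 1 := by
  unfold pauliString
  rw [tens_mul]
  simp only [pauli_sq]
  exact tens_one

/-- switch a label on or off -/
def sw (a : Bool) (s : Pauli) : Pauli := if a then s else Pauli.I

/-- the label of a product of three strings -/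
def lab {n : ℕ} (G : Fin 3 → Fin n → Pauli) (a b c : Bool) (i : Fin n) : Pauli :=
  Pauli.mul (Pauli.mul (sw a (G 0 i)) (sw b (G 1 i))) (sw c (G 2 i))

/-- unnormalised projector -/
noncomputable def proj3 {n : ℕ} (G : Fin 3 → Fin n → Pauli) :
    Matrix (Fin n → Fin 2) (Fin n → Fin 2) ℂ :=
  (1 + pauliString (G 0)) * (1 + pauliString (G 1)) * (1 + pauliString (G 2))

lemma proj3_fix {n : ℕ} (G : Fin 3 → Fin n → Pauli)
    (h : ∀ j k, ∏ i, Pauli.sg (G j i) (G k i) = 1) (j : Fin 3) :
    pauliString (G j) * proj3 G = proj3 G := by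
  have c := fun j k => string_comm (G j) (G k) (h j k)
  have q := fun j => string_sq (G j)
  unfold proj3
  fin_cases j
  · simp only [Fin.zero_eta, Fin.isValue]
    have : pauliString (G 0) * (1 + pauliString (G 0)) = 1 + pauliString (G 0) := by
      rw [mul_add, mul_one, q, add_comm]
    rw [← mul_assoc, ← mul_assoc, this]
  · simp only [Fin.mk_one, Fin.isValue]
    have h1 : pauliString (G 1) * (1 + pauliString (G 1)) = 1 + pauliString (G 1) := by
      rw [mul_add, mul_one, q, add_comm]
    have h2 : pauliString (G 1) * (1 + pauliString (G 0)) =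
      (1 + pauliString (G 0)) * pauliString (G 1) := by
      rw [mul_add, add_mul, mul_one, one_mul, c]
    rw [← mul_assoc, ← mul_assoc, h2, mul_assoc (1 + pauliString (G 0)), h1]
  · simp only [Fin.reduceFinMk, Fin.isValue]
    have h1 : pauliString (G 2) * (1 + pauliString (G 2)) = 1 + pauliString (G 2) := by
      rw [mul_add, mul_one, q, add_comm]
    have h2 : ∀ k, pauliString (G 2) * (1 + pauliString (G k)) =
      (1 + pauliString (G k)) * pauliString (G 2) := by
      intro k
      rw [mul_add, add_mul, mul_one, one_mul, c]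
    rw [← mul_assoc, ← mul_assoc, h2, mul_assoc (1 + pauliString (G 0)), h2, ← mul_assoc,
      mul_assoc, h1]

lemma string_sw {n : ℕ} (s : Fin n → Pauli) :
    1 + pauliString s = ∑ a : Bool, pauliString (fun i => sw a (s i)) := by
  rw [Fintype.sum_bool]
  simp only [sw, if_true]
  rw [add_comm]
  congr 1
  symm
  have : (fun _ : Fin n => Pauli.I) = fun _ => Pauli.I := rfl
  unfold pauliString
  simp [pauli, tens_one]

lemma string_mul {n : ℕ} (s t : Fin n → Pauli) :
    pauliString s * pauliString t =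
      (∏ i, Pauli.ph (s i) (t i)) • pauliString (fun i => Pauli.mul (s i) (t i)) := by
  unfold pauliString
  rw [tens_mul]
  simp only [pauli_mul]
  rw [tens_smul]

lemma proj3_expand {n : ℕ} (G : Fin 3 → Fin n → Pauli) :
    ∃ ph : Bool → Bool → Bool → ℂ, ph false false false = 1 ∧
      proj3 G = ∑ a : Bool, ∑ b : Bool, ∑ c : Bool,
        ph a b c • pauliString (lab G a b c) := by
  refine ⟨fun a b c => (∏ i, Pauli.ph (sw a (G 0 i)) (sw b (G 1 i))) *
    ∏ i, Pauli.ph (Pauli.mul (sw a (G 0 i)) (sw b (G 1 i))) (sw c (G 2 i)), ?_, ?_⟩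
  · simp [sw, Pauli.ph, Pauli.mul]
  · unfold proj3
    rw [string_sw, string_sw, string_sw, Finset.sum_mul_sum, Finset.sum_mul]
    apply Finset.sum_congr rfl
    intro a _
    rw [Finset.sum_mul]
    apply Finset.sum_congr rfl
    intro b _
    rw [Finset.mul_sum]
    apply Finset.sum_congr rfl
    intro c _
    rw [string_mul, Matrix.smul_mul, string_mul, smul_smul]
    rfl

lemma pauli_trace (s : Pauli) (h : s ≠ Pauli.I) : (pauli s).trace = 0 := by
  rcases s with _ | _ | _ | _
  · exact absurd rfl h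
  all_goals simp [pauli, Matrix.trace_fin_two]

lemma trace_conj (U M : Matrix (Fin 2) (Fin 2) ℂ) (hU : U ∈ Matrix.unitaryGroup (Fin 2) ℂ) :
    (U * M * star U).trace = M.trace := by
  rw [Matrix.trace_mul_comm, ← Matrix.mul_assoc, (Matrix.mem_unitaryGroup_iff').1 hU,
    Matrix.one_mul]

/-- nonvanishing of a local overlap forces equal support at that qubit -/
lemma local_supp (U : Matrix (Fin 2) (Fin 2) ℂ) (hU : U ∈ Matrix.unitaryGroup (Fin 2) ℂ)
    (s t : Pauli) (h : (U * pauli s * star U * pauli t).trace ≠ 0) :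
    (s = Pauli.I ↔ t = Pauli.I) := by
  constructor
  · intro hs
    subst hs
    by_contra ht
    apply h
    have : U * pauli Pauli.I * star U = 1 := by
      simp only [pauli, Matrix.mul_one]
      exact (Matrix.mem_unitaryGroup_iff).1 hU
    rw [this, Matrix.one_mul, pauli_trace t ht]
  · intro ht
    subst ht
    by_contra hs
    apply h
    have : (pauli Pauli.I) = 1 := rfl
    rw [this, Matrix.mul_one, trace_conj U _ hU, pauli_trace s hs]

/-- **Support transport.** If a local unitary (with qubit permutation) maps one codespace onto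
the codespace of three commuting Pauli strings, then each generator of the first code is carried
to the support of some product of the three strings. -/
theorem supp_transport {n m : ℕ} (GA : Fin m → Fin n → Pauli) (GB : Fin 3 → Fin n → Pauli)
    (hcomm : ∀ j k, ∏ i, Pauli.sg (GB j i) (GB k i) = 1)
    (hind : ∀ a b c, (∀ i, lab GB a b c i = Pauli.I) → a = false ∧ b = false ∧ c = false)
    (U : Fin n → Matrix (Fin 2) (Fin 2) ℂ) (π : Equiv.Perm (Fin n))
    (hU : ∀ i, U i ∈ Matrix.unitaryGroup (Fin 2) ℂ)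
    (hmap : (codeSpace GA).map (Matrix.mulVecLin (tens U * permOp π)) = codeSpace GB)
    (j : Fin m) : ∃ a b c, ∀ i, GA j (π i) = Pauli.I ↔ lab GB a b c i = Pauli.I := by
  obtain ⟨ph, hph, hE⟩ := proj3_expand GB
  have h1 := mul_eq_of_cols GB (tens (fun i => U i * pauli (GA j (π i)) * star (U i))) (proj3 GB)
    (proj3_fix GB hcomm) (fun ψ hψ => stab_transport GA GB U π hU hmap j ψ hψ)
  have htr : (proj3 GB).trace = 2 ^ n := by
    rw [hE]
    simp only [Matrix.trace_sum, Matrix.trace_smul]
    have key : ∀ a b c, (a, b, c) ≠ (false, false, false) →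
        (pauliString (lab GB a b c)).trace = 0 := by
      intro a b c habc
      have : ∃ i, lab GB a b c i ≠ Pauli.I := by
        by_contra hcon
        push Not at hcon
        obtain ⟨h1, h2, h3⟩ := hind a b c hcon
        exact habc (by rw [h1, h2, h3])
      obtain ⟨i, hi⟩ := this
      unfold pauliString
      rw [tens_trace]
      exact Finset.prod_eq_zero (Finset.mem_univ i) (pauli_trace _ hi)
    simp only [Fintype.sum_bool]
    rw [key true true true (by decide), key true true false (by decide),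
      key true false true (by decide), key true false false (by decide),
      key false true true (by decide), key false true false (by decide),
      key false false true (by decide), hph]
    have : lab GB false false false = fun _ => Pauli.I := by
      funext i; rfl
    rw [this]
    unfold pauliString
    rw [tens_trace]
    simp [pauli]
  by_contra hcon
  push Not at hcon
  have h2 : (tens (fun i => U i * pauli (GA j (π i)) * star (U i)) * proj3 GB).trace = 0 := by
    rw [hE]
    simp only [Matrix.mul_sum, Matrix.trace_sum, Matrix.mul_smul, Matrix.trace_smul]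
    apply Finset.sum_eq_zero
    intro a _
    apply Finset.sum_eq_zero
    intro b _
    apply Finset.sum_eq_zero
    intro c _
    unfold pauliString
    rw [tens_mul, tens_trace]
    obtain ⟨i, hi⟩ := hcon a b c
    have : (U i * pauli (GA j (π i)) * star (U i) * pauli (lab GB a b c i)).trace = 0 := by
      by_contra hne
      have := local_supp (U i) (hU i) _ _ hne
      rcases hi with hi | hi
      · exact hi.2 (this.1 hi.1)
      · exact hi.1 (this.2 hi.2)
    rw [Finset.prod_eq_zero (Finset.mem_univ i) this, smul_zero]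
  rw [h1, htr] at h2
  exact absurd h2 (pow_ne_zero n two_ne_zero)

end Q234.LU
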